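import Mathlib
import Pool.Agent.Run7.h424.J.Tr
import Pool.Agent.Run7.h424.J.Asy
import Pool.Agent.Run7.h843.J.Box
import Pool.Agent.Run7.h209.J.Key
import Pool.Agent.Run7.h238.J.LA5
import Pool.Agent.Run7.h89.J.Bad
import Pool.Agent.Run7.h89.J.Few
import Pool.Agent.Run7.h89.J.Pos

/-!
# The joint law for finitely many multipliers, without hypotheses
-/

set_option autoImplicit false

namespace Pool.Agent.Run7.h289.J

open Filter Topology
open Pool.Agent.Run7.h238.J (S_JDQ tw)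
open Pool.Agent.Run7.h843.G (Nf)
open Run7.h843.L (gk)

/-- **the joint law for sets of primes** -/
theorem t_JDQ {M : ℕ} (r : Fin M → ℕ) : S_JDQ r :=
  Pool.Agent.Run7.h424.J.t_JDQ' r Pool.Agent.N19.GB.t_BIL Pool.Agent.N19.GB.t_EQ
    (Pool.Agent.Run7.h238.J.t_JLA r) (Pool.Agent.Run7.h843.J.t_JBOX r)
    (Run7.h209.J.t_JKEY r) Pool.Agent.N502.GB.CNT.t_CNT
    Pool.Agent.Y488.CX.t_SIE Pool.Agent.N148.GB.t_HAL Pool.Agent.N19.GB.t_ME8
    Pool.Agent.Run7.h89.J.t_JBAD Pool.Agent.Run7.h89.J.t_JFEW Pool.Agent.Run7.h89.J.t_JPOS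
    Pool.Agent.N502.GB.FE1.t_FE1 Pool.Agent.N19.GB.t_ND

end Pool.Agent.Run7.h289.J
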