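import Mathlib
import Pool.Agent.Run7.h238.J.Stm
import Pool.Agent.Y405.CQ.MER

/-!
# J-POS: the labels have positive logarithmic density
-/

set_option autoImplicit false

open scoped Classical

namespace Pool.Agent.Run7.h289.J

open Finset
open Pool.Agent.Y703.CQ (nr)
open Pool.Agent.N973.ND (uu)
open Pool.Agent.N916.GB (Po)
open Pool.Agent.Run7.h238.J (Pos S_JPOS)

/-- a residue class suffices -/
theorem pos_of_class {d : ℕ → ZMod 2} {q a : ℕ} (hq : 1 ≤ q) (ha : a < q) (hc : a.Coprime q)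
    (h : ∀ p : ℕ, p.Prime → p % q = a → Po p ∧ d p ≠ 0) : Pos d := by
  obtain ⟨C, -, hC⟩ := Pool.Agent.Y405.CQ.mertens_ap q hq a ha hc
  have hphi : (0 : ℝ) < (Nat.totient q : ℝ) := by
    exact_mod_cast Nat.totient_pos.mpr (by omega)
  refine ⟨1 / (Nat.totient q : ℝ), C, by positivity, fun y hy => ?_⟩
  have h1 := (abs_le.1 (hC y hy)).1
  have h2 : ∑ p ∈ (Icc 1 y).filter (fun p => p.Prime ∧ p % q = a), (1 : ℝ) / p ≤
      ∑ p ∈ (range (y + 1)).filter (fun p => Po p ∧ d p ≠ 0), (1 : ℝ) / p := by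
    refine sum_le_sum_of_subset_of_nonneg (fun p hp => ?_) fun p _ _ => by positivity
    obtain ⟨h3, h4, h5⟩ := mem_filter.1 hp
    rw [mem_Icc] at h3
    exact mem_filter.2 ⟨mem_range.2 (by omega), h p h4 h5⟩
  linarith

/-- `nr v p` depends on the residue of `p` -/
theorem nr_mod {v p r : ℕ} (h : p ≡ r [MOD v]) : nr v p = nr v r := by
  unfold nr
  rw [(ZMod.natCast_eq_natCast_iff p r v).2 h]

theorem t_JPOS : S_JPOS := by
  intro U hne hU
  -- the class
  obtain ⟨u0, hu0⟩ := hne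
  have hp0 := hU u0 hu0
  have : Fact u0.Prime := ⟨hp0.1⟩
  obtain ⟨c, hc⟩ := FiniteField.exists_nonsquare (F := ZMod u0)
    (by rw [ZMod.ringChar_zmod_n]; exact hp0.2)
  set R : ℕ := 4 * ∏ v ∈ U.erase u0, v with hR
  have hcop : R.Coprime u0 := by
    refine Nat.Coprime.mul_left ?_ ?_
    · have : Nat.Coprime 2 u0 := (Nat.coprime_primes Nat.prime_two hp0.1).2 (Ne.symm hp0.2)
      exact Nat.Coprime.pow_left 2 this
    · refine Nat.Coprime.prod_left fun v hv => ?_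
      rw [mem_erase] at hv
      exact (Nat.coprime_primes (hU v hv.2).1 hp0.1).2 hv.1
  have hR0 : R ≠ 0 := by
    refine mul_ne_zero (by norm_num) (prod_ne_zero_iff.2 fun v hv => ?_)
    exact (hU v (mem_of_mem_erase hv)).1.ne_zero
  have hu00 : u0 ≠ 0 := hp0.1.ne_zero
  have hlt := Nat.chineseRemainder_lt_mul hcop 1 c.val hR0 hu00
  obtain ⟨k, hk⟩ : ∃ k, k = Nat.chineseRemainder hcop 1 c.val := ⟨_, rfl⟩
  rw [← hk] at hlt
  obtain ⟨a, h1, h2⟩ := k
  simp only at hlt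
  have hc0 : c ≠ 0 := by
    rintro rfl
    exact hc ⟨0, by simp⟩
  have hac : a.Coprime (R * u0) := by
    refine Nat.Coprime.mul_right ?_ ?_
    · have h3 : (1 : ℕ).Coprime R := Nat.coprime_one_left R
      exact (Nat.ModEq.gcd_eq h1).trans h3
    · have h3 : c.val.Coprime u0 := by
        rw [Nat.coprime_comm, hp0.1.coprime_iff_not_dvd]
        intro hd
        apply hc0
        have := (ZMod.natCast_eq_zero_iff c.val u0).2 hd
        rwa [ZMod.natCast_val, ZMod.cast_id] at this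
      exact (Nat.ModEq.gcd_eq h2).trans h3
  have hq : 1 ≤ R * u0 := Nat.one_le_iff_ne_zero.2 (mul_ne_zero hR0 hu00)
  have key : ∀ p : ℕ, p.Prime → p % (R * u0) = a → Po p ∧ uu p = 0 ∧ ∑ v ∈ U, nr v p = 1 := by
    intro p hp hpa
    have e1 : p ≡ a [MOD R * u0] := by
      rw [Nat.ModEq, hpa, Nat.mod_eq_of_lt hlt]
    have e4 : p ≡ 1 [MOD 4] := ((e1.of_dvd ((Dvd.intro _ rfl : 4 ∣ R).mul_right u0)).trans
      (h1.of_dvd ⟨_, rfl⟩))
    have e4' : p % 4 = 1 := e4
    refine ⟨⟨hp, by omega⟩, if_neg (by omega), ?_⟩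
    rw [← add_sum_erase U _ hu0]
    have e2 : nr u0 p = 1 := by
      rw [nr_mod (e1.of_dvd ⟨R, by ring⟩), nr_mod h2]
      unfold nr
      rw [if_neg]
      rwa [ZMod.natCast_val, ZMod.cast_id]
    have e3 : ∑ v ∈ U.erase u0, nr v p = 0 := by
      refine sum_eq_zero fun v hv => ?_
      have hvR : v ∣ R := (dvd_prod_of_mem (fun v => v) hv).mul_left 4
      rw [nr_mod ((e1.of_dvd (hvR.mul_right u0)).trans (h1.of_dvd hvR))]
      unfold nr
      rw [if_pos]
      exact ⟨1, by simp⟩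
    rw [e2, e3, add_zero]
  refine ⟨pos_of_class hq hlt hac fun p hp hpa => ?_, pos_of_class hq hlt hac fun p hp hpa => ?_,
    pos_of_class (q := 4) (a := 3) (by norm_num) (by norm_num) (by norm_num)
      fun p hp hpa => ⟨⟨hp, by omega⟩, ?_⟩⟩
  · obtain ⟨g1, g2, g3⟩ := key p hp hpa
    exact ⟨g1, by rw [g3]; exact one_ne_zero⟩
  · obtain ⟨g1, g2, g3⟩ := key p hp hpa
    refine ⟨g1, ?_⟩
    rw [g2, g3, add_zero]
    exact one_ne_zero
  · unfold uu
    rw [if_pos hpa]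
    exact one_ne_zero

end Pool.Agent.Run7.h289.J
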